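import Pool.Agent.R935.GKR.Low2
import Pool.Agent.R935.GKR.Up

/-!
# The Gauss-Kuzmin ratio conjecture for reduced matrices is false

For `P = (1, a)`, `a ≥ 20000`, the ratio `#_N(P₁) / #_N(P₂)` does not tend to
`GK(P₁') / GK(P₂')`.
-/

set_option autoImplicit false

namespace Pool.Agent.Results.MP_0a7e48_nt.GaussKuzminRatioFails

open Pool.Agent.R935.GKR Filter Topology

theorem GK_ratio (a : ℕ) (ha : 1 ≤ a) : (a : ℝ) * (a + 2) / 4 ≤ GK [1] / GK [a] := by
  have ha' : (1 : ℝ) ≤ a := by exact_mod_cast ha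
  have h1 : GK [1] = Real.logb 2 (4 / 3) := by
    unfold GK
    congr 1
    simp [cf, incLast]
    norm_num
  have h2 : GK [a] = Real.logb 2 (1 + 1 / ((a : ℝ) * (a + 2))) := by
    unfold GK
    congr 1
    simp only [cf, incLast]
    push_cast
    field_simp
    ring
  have hpos : (0 : ℝ) < (a : ℝ) * (a + 2) := by positivity
  have hlog2 : (0 : ℝ) < Real.log 2 := Real.log_pos (by norm_num)
  have h3 : (1 / 4 : ℝ) ≤ Real.log (4 / 3) := by
    have := Real.log_le_sub_one_of_pos (show (0 : ℝ) < 3 / 4 by norm_num)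
    have e : Real.log (4 / 3) = -Real.log (3 / 4) := by
      rw [← Real.log_inv]
      norm_num
    rw [e]
    linarith
  have h4 : Real.log (1 + 1 / ((a : ℝ) * (a + 2))) ≤ 1 / ((a : ℝ) * (a + 2)) := by
    have := Real.log_le_sub_one_of_pos (show (0 : ℝ) < 1 + 1 / ((a : ℝ) * (a + 2)) by positivity)
    linarith
  have h5 : 0 < Real.log (1 + 1 / ((a : ℝ) * (a + 2))) := by
    apply Real.log_pos
    have : 0 < 1 / ((a : ℝ) * (a + 2)) := by positivity
    linarith
  have h6 : GK [1] / GK [a] = Real.log (4 / 3) / Real.log (1 + 1 / ((a : ℝ) * (a + 2))) := by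
    rw [h1, h2, Real.logb, Real.logb]
    field_simp
  rw [h6, le_div_iff₀ h5]
  calc (a : ℝ) * (a + 2) / 4 * Real.log (1 + 1 / ((a : ℝ) * (a + 2)))
      ≤ (a : ℝ) * (a + 2) / 4 * (1 / ((a : ℝ) * (a + 2))) :=
        mul_le_mul_of_nonneg_left h4 (by positivity)
    _ = 1 / 4 := by field_simp
    _ ≤ _ := h3

theorem ratio_le (a : ℕ) (ha : 20000 ≤ a) (V : ℕ) (hV : a + 2 ≤ V) :
    (num ((2 * a + 3) * (3 * V) ^ 2) [1, a] : ℝ) / num ((2 * a + 3) * (3 * V) ^ 2) [a, 1] ≤
      4536 * a + 1800 := by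
  set N := (2 * a + 3) * (3 * V) ^ 2 with hN
  set u := Nat.sqrt (9 * (2 * a + 3)) with hu
  have hs1 : 9 * (2 * a + 3) < (u + 1) * (u + 1) := Nat.lt_succ_sqrt _
  have hs2 : u * u ≤ 9 * (2 * a + 3) := Nat.sqrt_le _
  have hs3 : (u + 1) * (u + 1) ≤ 19 * a := by
    have : 2 * u + 28 ≤ a := by
      by_contra hcon
      push Not at hcon
      nlinarith
    nlinarith
  have hV1 : 1 ≤ V := by omega
  have h1 := num_le a ((u + 1) * V) (5 * V) N (by omega)
    (by
      calc N = (9 * (2 * a + 3)) * V ^ 2 := by rw [hN]; ring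
        _ ≤ ((u + 1) * (u + 1)) * V ^ 2 := Nat.mul_le_mul_right _ hs1.le
        _ = _ := by ring)
    (by
      calc N = (9 * (2 * a + 3)) * V ^ 2 := by rw [hN]; ring
        _ ≤ (25 * a) * V ^ 2 := Nat.mul_le_mul_right _ (by omega)
        _ = _ := by ring)
    (by nlinarith) (by omega)
  have h2 : num N [1, a] ≤ (1512 * a + 600) * V ^ 2 := by
    refine h1.trans ?_
    calc 4 * (12 * ((u + 1) * V) ^ 2 + 6 * (a + 1) * (5 * V) ^ 2)
        = 48 * ((u + 1) * (u + 1)) * V ^ 2 + 600 * (a + 1) * V ^ 2 := by ring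
      _ ≤ 48 * (19 * a) * V ^ 2 + 600 * (a + 1) * V ^ 2 :=
          Nat.add_le_add_right (Nat.mul_le_mul_right _ (Nat.mul_le_mul_left _ hs3)) _
      _ = _ := by ring
  have h3 := card_CW_le_num a (by omega) (3 * V) N le_rfl
  have h4 := card_CW_ge V (by omega)
  have h5 : (V : ℝ) ^ 2 / 3 ≤ (num N [a, 1] : ℝ) :=
    h4.trans (by exact_mod_cast h3)
  have hVpos : (0 : ℝ) < V := by exact_mod_cast hV1
  have hpos : (0 : ℝ) < (num N [a, 1] : ℝ) := lt_of_lt_of_le (by positivity) h5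
  rw [div_le_iff₀ hpos]
  have h6 : (num N [1, a] : ℝ) ≤ (1512 * a + 600) * (V : ℝ) ^ 2 := by exact_mod_cast h2
  have h7 : (4536 * (a : ℝ) + 1800) * ((V : ℝ) ^ 2 / 3) ≤
      (4536 * a + 1800) * (num N [a, 1] : ℝ) := mul_le_mul_of_nonneg_left h5 (by positivity)
  nlinarith

/-- **The Gauss-Kuzmin ratio conjecture fails**: for `P = (1, a)` with `a ≥ 20000`, the ratio
`#_N(P₁) / #_N(P₂)` does not tend to `GK(P₁') / GK(P₂')`, where `P₁ = P`, `P₂` is the cyclic
shift of `P`, and `'` deletes the last entry. -/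
theorem result (a : ℕ) (ha : 20000 ≤ a) :
    ¬ Tendsto (fun N : ℕ => (num N [1, a] : ℝ) / (num N ([1, a].rotate 1) : ℝ)) atTop
      (𝓝 (GK ([1, a].dropLast) / GK (([1, a].rotate 1).dropLast))) := by
  intro h
  have e1 : [1, a].rotate 1 = [a, 1] := rfl
  have e2 : [1, a].dropLast = [1] := rfl
  have e3 : [a, 1].dropLast = [a] := rfl
  rw [e1, e2, e3] at h
  have hsub : Tendsto (fun V : ℕ => (2 * a + 3) * (3 * V) ^ 2) atTop atTop := by
    refine tendsto_atTop_mono (fun V => ?_) tendsto_id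
    change V ≤ _
    nlinarith [Nat.zero_le V, Nat.zero_le a, Nat.zero_le (a * V ^ 2)]
  have h1 := h.comp hsub
  have h2 : GK [1] / GK [a] ≤ 4536 * a + 1800 := by
    refine le_of_tendsto h1 ?_
    filter_upwards [eventually_ge_atTop (a + 2)] with V hV
    exact ratio_le a ha V hV
  have h3 := GK_ratio a (by omega)
  have ha' : (20000 : ℝ) ≤ a := by exact_mod_cast ha
  nlinarith

end Pool.Agent.Results.MP_0a7e48_nt.GaussKuzminRatioFails
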